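import Pool.Agent.Lib.MP_adea1b_nt.Main

/-!
# MP_adea1b_nt: repunits of prime length without small prime factors

For every `ε > 0` there is `c > 0` such that for all large `X` at least `X ^ (1 - ε)` primes
`p ≤ X` have the property that every prime factor of the decimal repunit `R_p` is at least
`c p log X log₂ X log₄ X / (log₃ X)²` (iterated natural logarithms).
-/

open Finset
open scoped Classical

namespace Pool.Agent.Results.MP_adea1b_nt.LeastPrimeFactor

/-- the prime factors of `R_p`, `p > 3` prime, are `1` modulo `p` -/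
lemma dvd_sub_one {p q : ℕ} (hp : p.Prime) (h3 : 3 < p) (hq : q.Prime)
    (h : q ∣ ∑ i ∈ range p, 10 ^ i) : p ∣ q - 1 := by
  have : Fact q.Prime := ⟨hq⟩
  have h1 : (∑ i ∈ range p, (10 : ZMod q) ^ i) = 0 := by
    have h2 := (ZMod.natCast_eq_zero_iff (∑ i ∈ range p, 10 ^ i) q).2 h
    push_cast at h2
    exact h2
  have h2 : (10 : ZMod q) ^ p = 1 := by
    have h4 := geom_sum_mul (10 : ZMod q) p
    rw [h1, zero_mul] at h4
    exact (sub_eq_zero.1 h4.symm)
  have h5 : (10 : ZMod q) ≠ 1 := by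
    intro h6
    rw [h6] at h1
    simp only [one_pow, sum_const, card_range, nsmul_eq_mul, mul_one] at h1
    have h7 := (Nat.prime_dvd_prime_iff_eq hq hp).1 ((ZMod.natCast_eq_zero_iff p q).1 h1)
    have h8 : ((9 : ℕ) : ZMod q) = 0 := by
      have h9 : (9 : ZMod q) = 10 - 1 := by norm_num
      push_cast
      rw [h9, h6, sub_self]
    have h9 := (ZMod.natCast_eq_zero_iff 9 q).1 h8
    have h10 : q ∣ 3 := hq.dvd_of_dvd_pow (show q ∣ 3 ^ 2 by simpa using h9)
    have h11 := Nat.le_of_dvd (by norm_num) h10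
    omega
  have h6 := orderOf_eq_prime (hp := ⟨hp⟩) h2 h5
  rw [← h6]
  apply ZMod.orderOf_dvd_card_sub_one
  intro h7
  rw [h7, zero_pow hp.ne_zero] at h2
  exact zero_ne_one h2

theorem result (ε : ℝ) (hε : 0 < ε) : ∃ c : ℝ, 0 < c ∧ ∃ X₀ : ℝ, ∀ X : ℝ, X₀ ≤ X →
    X ^ (1 - ε) ≤ (((Icc 1 ⌊X⌋₊).filter fun p : ℕ => p.Prime ∧
      ∀ q : ℕ, q.Prime → q ∣ ∑ i ∈ range p, 10 ^ i →
        c * p * (Real.log X * Real.log (Real.log X) *
          Real.log (Real.log (Real.log (Real.log X))) /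
            Real.log (Real.log (Real.log X)) ^ 2) ≤ q).card : ℝ) := by
  obtain ⟨c, hc, X₀, h⟩ := RepLpf.main ε hε
  refine ⟨c, hc, X₀, fun X hX => (h X hX).trans ?_⟩
  have h1 : ((Icc 1 ⌊X⌋₊).filter fun p : ℕ => p.Prime ∧ 3 < p ∧
      ∀ q : ℕ, q.Prime → (p ∣ q - 1 ∨ p ∣ q + 1) →
        c * p * (Real.log X * Real.log (Real.log X) *
          Real.log (Real.log (Real.log (Real.log X))) /
            Real.log (Real.log (Real.log X)) ^ 2) ≤ q) ⊆
      (Icc 1 ⌊X⌋₊).filter fun p : ℕ => p.Prime ∧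
      ∀ q : ℕ, q.Prime → q ∣ ∑ i ∈ range p, 10 ^ i →
        c * p * (Real.log X * Real.log (Real.log X) *
          Real.log (Real.log (Real.log (Real.log X))) /
            Real.log (Real.log (Real.log X)) ^ 2) ≤ q := by
    intro p hp
    rw [mem_filter] at hp ⊢
    exact ⟨hp.1, hp.2.1, fun q hq hqp =>
      hp.2.2.2 q hq (Or.inl (dvd_sub_one hp.2.1 hp.2.2.1 hq hqp))⟩
  exact_mod_cast card_le_card h1

end Pool.Agent.Results.MP_adea1b_nt.LeastPrimeFactor
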