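import Pool.Agent.Lib.B10.Top
import Pool.Agent.Lib.B10.Arch
import Pool.Agent.Lib.B10.Inst2
import Pool.Agent.Lib.B10.Inst5
import Pool.Agent.Lib.B10.Rep

/-!
# MP_adea1b_nt: a positive proportion of primes whose square divides no repunit of length prime
to them

There is `c > 0` such that for all large `X` at least `c X / log X` primes `q ≤ X` have the property
that `q ^ 2` divides no decimal repunit `R_k` with `q ∤ k`; in particular they are not base 10
Wieferich primes.
-/

open Finset
open scoped Classical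

namespace Pool.Agent.Results.MP_adea1b_nt.NonWieferich

theorem result : ∃ c : ℝ, 0 < c ∧ ∃ X₀ : ℝ, ∀ X : ℝ, X₀ ≤ X →
    c * X / Real.log X ≤ (((Icc 1 ⌊X⌋₊).filter fun q : ℕ => q.Prime ∧
      ∀ k : ℕ, ¬ q ∣ k → ¬ q ^ 2 ∣ ∑ i ∈ range k, 10 ^ i).card : ℝ) := by
  have : Fact (Nat.Prime 5) := ⟨by norm_num⟩
  exact B10.rep_of_fermat (B10.top10 (B10.arch 60) (B10.final2 60) (B10.final5 60))

end Pool.Agent.Results.MP_adea1b_nt.NonWieferich
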