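import Pool.Agent.Lib.PTr.Main

/-!
# MP_adea1b_nt: a positive proportion of repunits of prime length without small prime factors

For every real `lam > 0` there is `c > 0` such that for all large `X` at least `c X / log X` primes
`p ≤ X` have the property that every prime factor of the decimal repunit `R_p` exceeds
`lam p log p`.
-/

open Finset
open scoped Classical

namespace Pool.Agent.Results.MP_adea1b_nt.PositiveProportion

/-- the prime factors of `R_p`, `p > 3` prime, are `1` modulo `p` -/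
lemma dvd_sub_one {p q : ℕ} (hp : p.Prime) (h3 : 3 < p) (hq : q.Prime)
    (h : q ∣ ∑ i ∈ range p, 10 ^ i) : p ∣ q - 1 := by
  have : Fact q.Prime := ⟨hq⟩
  have h1 : (∑ i ∈ range p, (10 : ZMod q) ^ i) = 0 := by
    have h2 := (ZMod.natCast_eq_zero_iff (∑ i ∈ range p, 10 ^ i) q).2 h
    push_cast at h2
    exact h2
  have h2 : (10 : ZMod q) ^ p = 1 := by
    have h4 := geom_sum_mul (10 : ZMod q) p
    rw [h1, zero_mul] at h4
    exact (sub_eq_zero.1 h4.symm)
  have h5 : (10 : ZMod q) ≠ 1 := by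
    intro h6
    rw [h6] at h1
    simp only [one_pow, sum_const, card_range, nsmul_eq_mul, mul_one] at h1
    have h7 := (Nat.prime_dvd_prime_iff_eq hq hp).1 ((ZMod.natCast_eq_zero_iff p q).1 h1)
    have h8 : ((9 : ℕ) : ZMod q) = 0 := by
      have h9 : (9 : ZMod q) = 10 - 1 := by norm_num
      push_cast
      rw [h9, h6, sub_self]
    have h9 := (ZMod.natCast_eq_zero_iff 9 q).1 h8
    have h10 : q ∣ 3 := hq.dvd_of_dvd_pow (show q ∣ 3 ^ 2 by simpa using h9)
    have h11 := Nat.le_of_dvd (by norm_num) h10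
    omega
  have h6 := orderOf_eq_prime (hp := ⟨hp⟩) h2 h5
  rw [← h6]
  apply ZMod.orderOf_dvd_card_sub_one
  intro h7
  rw [h7, zero_pow hp.ne_zero] at h2
  exact zero_ne_one h2

theorem result (lam : ℝ) (hlam : 0 < lam) : ∃ c : ℝ, 0 < c ∧ ∃ X₀ : ℝ, ∀ X : ℝ, X₀ ≤ X →
    c * X / Real.log X ≤ (((Icc 1 ⌊X⌋₊).filter fun p : ℕ => p.Prime ∧
      ∀ q : ℕ, q.Prime → q ∣ ∑ i ∈ range p, 10 ^ i → lam * p * Real.log p < q).card : ℝ) := by
  obtain ⟨c, X₀, hc, h⟩ := PTr.Cor_p PTr.theoremT 1 one_ne_zero lam hlam 3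
  refine ⟨c, hc, X₀, fun X hX => (h X hX).trans ?_⟩
  refine Nat.cast_le.2 (card_le_card ?_)
  intro p hp
  rw [mem_filter] at hp ⊢
  obtain ⟨h1, h2, h3, h4⟩ := hp
  refine ⟨h1, h2, fun q hq hqp => h4 q hq ?_ ?_⟩
  · obtain ⟨k, hk⟩ := dvd_sub_one h2 h3 hq hqp
    refine ⟨k, ?_⟩
    have := hq.one_lt
    have h5 : q = p * k + 1 := by omega
    rw [h5]
    push_cast
    ring
  · have := hq.one_lt
    intro h5
    have h6 : q = 1 := by exact_mod_cast h5
    omega

end Pool.Agent.Results.MP_adea1b_nt.PositiveProportion
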